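import Pool.Agent.Helper490.SH.Final

set_option autoImplicit false

open MeasureTheory Real

namespace Pool.Agent.Results.MP_efa090_mp.RadialThree

open Pool.Helper490.SH

lemma three_quarters : ((3:ℝ) / 4) ^ ((3:ℝ) / 2) = 3 * √3 / 8 := by
  rw [show (3:ℝ) / 2 = 1 + 1 / 2 by norm_num, Real.rpow_add (by norm_num), Real.rpow_one,
    ← Real.sqrt_eq_rpow, Real.sqrt_div (by norm_num), show √(4:ℝ) = 2 by
      rw [show (4:ℝ) = 2 ^ 2 by norm_num, Real.sqrt_sq (by norm_num)]]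
  ring

/-- The numbers `a_L` in dimension three. -/
noncomputable def aL (L : ℕ) : ℝ :=
  ((Nat.factorial (L + 3 - 1) : ℝ) / (Nat.factorial L : ℝ)) * ((L : ℝ) + (3 : ℝ) / 2) /
        (((L : ℝ) + ((3 : ℝ) - 2) / 2) * ((L : ℝ) + (3 : ℝ) / 2)) ^ ((3 : ℝ) / 2)

lemma aL_le (L : ℕ) : aL L ≤ 8 / √3 := by
  have hL : (0:ℝ) ≤ L := Nat.cast_nonneg L
  have h1 : (Nat.factorial (L + 3 - 1) : ℝ) / (Nat.factorial L : ℝ) = ((L:ℝ) + 1) * (L + 2) := by
    have h2 : (Nat.factorial (L + 3 - 1) : ℝ) = (L + 2) * ((L + 1) * (Nat.factorial L)) := by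
      have : L + 3 - 1 = L + 1 + 1 := by omega
      rw [this, Nat.factorial_succ, Nat.factorial_succ]
      push_cast
      ring
    rw [h2, div_eq_iff (by positivity)]
    ring
  rw [aL, h1]
  set p : ℝ := ((L : ℝ) + ((3 : ℝ) - 2) / 2) * ((L : ℝ) + (3 : ℝ) / 2) with hp
  have hp0 : 0 < p := by rw [hp]; norm_num; positivity
  have hp32 : p ^ ((3:ℝ) / 2) = p * √p := by
    rw [show (3:ℝ) / 2 = 1 + 1 / 2 by norm_num, Real.rpow_add hp0, Real.rpow_one,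
      ← Real.sqrt_eq_rpow]
  have h3 : 0 < √3 := Real.sqrt_pos.2 (by norm_num)
  have hsp : 0 < √p := Real.sqrt_pos.2 hp0
  rw [hp32, div_le_div_iff₀ (by positivity) h3]
  have h4 : 0 ≤ ((L:ℝ) + 1) * (L + 2) * (L + 3 / 2) * √3 := by positivity
  have h5 : 0 ≤ 8 * (p * √p) := by positivity
  refine (sq_le_sq₀ h4 h5).1 ?_
  have e1 : (((L:ℝ) + 1) * (L + 2) * (L + 3 / 2) * √3) ^ 2 =
      3 * ((((L:ℝ) + 1) * (L + 2)) ^ 2 * (L + 3 / 2) ^ 2) := by
    rw [mul_pow, Real.sq_sqrt (by norm_num)]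
    ring
  have e2 : (8 * (p * √p)) ^ 2 = 64 * p ^ 3 := by
    have : √p ^ 2 = p := Real.sq_sqrt hp0.le
    calc (8 * (p * √p)) ^ 2 = 64 * p ^ 2 * √p ^ 2 := by ring
      _ = 64 * p ^ 3 := by rw [this]; ring
  rw [e1, e2]
  have e3 : p ^ 3 = ((L:ℝ) + 1 / 2) ^ 3 * (L + 3 / 2) * (L + 3 / 2) ^ 2 := by
    rw [hp]; ring
  rw [e3]
  have h6 : 3 * (((L:ℝ) + 1) * (L + 2)) ^ 2 ≤ 64 * (((L:ℝ) + 1 / 2) ^ 3 * (L + 3 / 2)) := by
    have : 64 * (((L:ℝ) + 1 / 2) ^ 3 * (L + 3 / 2)) - 3 * (((L:ℝ) + 1) * (L + 2)) ^ 2 =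
        61 * (L:ℝ) ^ 4 + 174 * (L:ℝ) ^ 3 + 153 * (L:ℝ) ^ 2 + 44 * L := by ring
    have h7 : (0:ℝ) ≤ 61 * (L:ℝ) ^ 4 + 174 * (L:ℝ) ^ 3 + 153 * (L:ℝ) ^ 2 + 44 * L := by positivity
    linarith
  have h8 : 0 ≤ ((L:ℝ) + 3 / 2) ^ 2 := sq_nonneg _
  nlinarith [mul_le_mul_of_nonneg_right h6 h8]

lemma aL_zero : aL 0 = 8 / √3 := by
  have h3 : 0 < √3 := Real.sqrt_pos.2 (by norm_num)
  have e : (((0:ℕ) : ℝ) + ((3 : ℝ) - 2) / 2) * (((0:ℕ) : ℝ) + (3 : ℝ) / 2) = 3 / 4 := by norm_num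
  rw [aL, e, three_quarters]
  norm_num [Nat.factorial]
  have h4 : √3 * √3 = 3 := Real.mul_self_sqrt (by norm_num)
  field_simp

lemma const_eq : (4 * Real.pi) ^ (-(3 : ℝ) / 2) / Real.Gamma (1 + (3 : ℝ) / 2) * (8 / √3) = cR := by
  have hπ := pi_pos
  have h2 : Real.Gamma (1 + (3:ℝ) / 2) = 3 / 4 * √π := by
    have h4 : (1:ℝ) + 3 / 2 = 3 / 2 + 1 := by norm_num
    have h3 : (3:ℝ) / 2 = 1 / 2 + 1 := by norm_num
    rw [h4, Real.Gamma_add_one (by norm_num), h3, Real.Gamma_add_one (by norm_num),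
      Real.Gamma_one_half_eq]
    ring
  have h3 : (4 * π) ^ (-(3:ℝ) / 2) = (4 * π * (2 * √π))⁻¹ := by
    rw [neg_div, Real.rpow_neg (by positivity)]
    congr 1
    rw [show (3:ℝ) / 2 = 1 + 1 / 2 by norm_num, Real.rpow_add (by positivity), Real.rpow_one,
      ← Real.sqrt_eq_rpow, Real.sqrt_mul (by norm_num), show √(4:ℝ) = 2 by
      rw [show (4:ℝ) = 2 ^ 2 by norm_num, Real.sqrt_sq (by norm_num)]]
  rw [h2, h3, cR]
  have h4 : √π ^ 2 = π := Real.sq_sqrt hπ.le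
  have h5 : 0 < √π := Real.sqrt_pos.2 hπ
  have h6 : 0 < √3 := Real.sqrt_pos.2 (by norm_num)
  field_simp
  rw [h4]
  ring

/-- Dimension three, spherically symmetric potentials: the sharp constant is
`L^cl_{0,3} sup_L a_L = L^cl_{0,3} a_0`. -/
theorem result :
    IsLUB (Set.range (fun L : ℕ =>
        ((Nat.factorial (L + 3 - 1) : ℝ) / (Nat.factorial L : ℝ)) * ((L : ℝ) + (3 : ℝ) / 2) /
          (((L : ℝ) + ((3 : ℝ) - 2) / 2) * ((L : ℝ) + (3 : ℝ) / 2)) ^ ((3 : ℝ) / 2))) (8 / √3) ∧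
      IsLUB {r : ℝ | ∃ W : EuclideanSpace ℝ (Fin 3) → ℝ,
          ∃ S : Submodule ℝ (EuclideanSpace ℝ (Fin 3) → ℝ),
          (∀ x y, ‖x‖ = ‖y‖ → W x = W y) ∧
          Measurable W ∧ (∀ x, 0 ≤ W x) ∧
          Integrable (fun x => W x ^ ((3 : ℝ) / 2)) ∧
          0 < ∫ x, W x ^ ((3 : ℝ) / 2) ∧
          FiniteDimensional ℝ S ∧
          (∀ u ∈ S, ContDiff ℝ ((⊤ : ℕ∞) : WithTop ℕ∞) u ∧ HasCompactSupport u) ∧
          (∀ u ∈ S, u ≠ 0 → ∫ x, ‖fderiv ℝ u x‖ ^ 2 < ∫ x, W x * u x ^ 2) ∧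
          r = (Module.finrank ℝ S : ℝ) / ∫ x, W x ^ ((3 : ℝ) / 2)}
        ((4 * Real.pi) ^ (-(3 : ℝ) / 2) / Real.Gamma (1 + (3 : ℝ) / 2) * (8 / √3)) := by
  refine ⟨IsGreatest.isLUB ⟨⟨0, aL_zero⟩, ?_⟩, ?_⟩
  · rintro _ ⟨L, rfl⟩
    exact aL_le L
  rw [const_eq]
  constructor
  · rintro r ⟨W, S, hrad, hWm, hW0, hint, hpos, hfd, hS, hneg, rfl⟩
    rw [div_le_iff₀ hpos]
    let b := Module.finBasis ℝ S
    refine upper_radial W hrad hWm hW0 hint (Module.finrank ℝ S) (fun i => (b i : _ → ℝ))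
      (fun i => hS _ (b i).2) fun c hc => ?_
    have h1 : (fun y => ∑ i, c i * (b i : EuclideanSpace ℝ (Fin 3) → ℝ) y) =
        ((∑ i, c i • b i : S) : EuclideanSpace ℝ (Fin 3) → ℝ) := by
      funext y
      rw [Submodule.coe_sum, Finset.sum_apply]
      rfl
    have h2 : (∑ i, c i • b i : S) ≠ 0 := by
      intro h
      apply hc
      funext i
      exact Fintype.linearIndependent_iff.1 b.linearIndependent c h i
    set v : S := ∑ i, c i • b i with hv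
    have h3 : (v : EuclideanSpace ℝ (Fin 3) → ℝ) ≠ 0 := fun h => h2 (Subtype.ext h)
    have h4 := hneg v v.2 h3
    have h5 : ∀ x, ∑ i, c i * (b i : EuclideanSpace ℝ (Fin 3) → ℝ) x =
        (v : EuclideanSpace ℝ (Fin 3) → ℝ) x := fun x => congrFun h1 x
    rw [h1]
    simp only [h5]
    obtain ⟨h6, h7⟩ := hS v v.2
    have h8 : Integrable (fun x => ‖fderiv ℝ (v : EuclideanSpace ℝ (Fin 3) → ℝ) x‖ ^ 2) := by
      have h9 : Continuous (fderiv ℝ (v : EuclideanSpace ℝ (Fin 3) → ℝ)) :=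
        h6.continuous_fderiv (by simp)
      have h10 : HasCompactSupport
          (fun x => ‖fderiv ℝ (v : EuclideanSpace ℝ (Fin 3) → ℝ) x‖ ^ 2) :=
        (h7.fderiv ℝ).norm.comp_left (g := fun t : ℝ => t ^ 2) (by norm_num)
      exact (h9.norm.pow 2).integrable_of_hasCompactSupport h10
    rw [integral_sub h8 (integrable_W_sq W hWm hW0 hint _ h6.continuous h7)]
    linarith
  · intro B hB
    have hc := cR_pos
    have key : ∀ ε : ℝ, 0 < ε → cR ≤ B * (1 + ε) ^ (3 / 2 : ℝ) := by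
      intro ε hε
      obtain ⟨u, hu1, hu2, hu0, hlt⟩ := lower_data ε hε
      have hpe : 0 < (1 + ε) ^ (3 / 2 : ℝ) := Real.rpow_pos_of_pos (by linarith) _
      have hmem : (1 : ℝ) / ∫ x, ((1 + ε) * W0 x) ^ (3 / 2 : ℝ) ≤ B := by
        refine hB ⟨fun x => (1 + ε) * W0 x, Submodule.span ℝ {u}, fun x y h => by
          simp only [W0_rad x y h], W0_meas.const_mul _,
          fun x => mul_nonneg (by linarith) (W0_pos x).le, scaled_integrable ε hε, ?_, ?_, ?_, ?_, ?_⟩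
        · rw [scaled_integral ε hε]
          positivity
        · infer_instance
        · intro v hv
          obtain ⟨t, rfl⟩ := Submodule.mem_span_singleton.1 hv
          exact ⟨hu1.const_smul t, hu2.smul_left (f := fun _ => t)⟩
        · intro v hv hv0
          obtain ⟨t, rfl⟩ := Submodule.mem_span_singleton.1 hv
          have ht : t ≠ 0 := fun h => hv0 (by rw [h, zero_smul])
          have h1 : ∀ x, fderiv ℝ (t • u) x = t • fderiv ℝ u x := fun x =>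
            fderiv_const_smul ((hu1.differentiable (by simp)) x) t
          have h2 : ∀ x, ‖fderiv ℝ (t • u) x‖ ^ 2 = t ^ 2 * ‖fderiv ℝ u x‖ ^ 2 := fun x => by
            rw [h1, norm_smul, Real.norm_eq_abs, mul_pow, sq_abs]
          have h3 : ∀ x, (1 + ε) * W0 x * (t • u) x ^ 2 = t ^ 2 * ((1 + ε) * W0 x * u x ^ 2) :=
            fun x => by rw [Pi.smul_apply, smul_eq_mul]; ring
          simp only [h2, h3]
          rw [integral_const_mul, integral_const_mul]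
          exact mul_lt_mul_of_pos_left hlt (by positivity)
        · rw [finrank_span_singleton hu0, Nat.cast_one]
      rw [scaled_integral ε hε, one_div, mul_inv, inv_inv] at hmem
      rw [inv_mul_le_iff₀ hpe] at hmem
      linarith
    have h1 : Filter.Tendsto (fun ε : ℝ => B * (1 + ε) ^ (3 / 2 : ℝ))
        (nhdsWithin 0 (Set.Ioi 0)) (nhds (B * 1)) := tendsto_scaled.const_mul B
    rw [mul_one] at h1
    refine ge_of_tendsto h1 ?_
    filter_upwards [self_mem_nhdsWithin] with ε hε using key ε hε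

end Pool.Agent.Results.MP_efa090_mp.RadialThree
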